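import Pool.Agent.Helper76.LD7.Num
import Pool.Agent.Helper68.LD7.TTB1
import Pool.Agent.Helper94.LD7.TTA
import Pool.Agent.Helper4.LD6.NBB

/-!
# LD7, block NBB7: the children with a boundary of the grid at an old time
-/

set_option autoImplicit false

namespace Pool.Agent.Helper4.LD7

open Set MeasureTheory Filter Topology
open Pool.Agent.Helper41.LD4 (NBg)
open Pool.Agent.Helper41.LD5 (fp pwf)
open Pool.Agent.Helper41.LD7
open Pool.Agent.Helper4.LD6 (few_floor)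
open Pool.Agent.Helper76.LD7 (num_K num_Z num_le num_E num_pow)
open Pool.Agent.Helper68.LD7 (lt_Tt Tt_le Tt_big Th_ge)
open Pool.Agent.Helper94.LD7 (fp_step fp_nonneg fp_near pwf_mono pwf_sub)

/-- the first time of the stage -/
theorem start_le {F : Pm} {K : ℕ} {a₀ ℓst : ℝ} (hF : F.Ok) (S : F.St K a₀ ℓst) :
    F.n₀ K a₀ ℓst ≤ F.X * (F.X + 2 ^ (2 * K) + F.C₁ * F.E K) + F.P := by
  obtain ⟨k, hk⟩ : ∃ k, k = F.X + 2 ^ (2 * K) + F.C₁ * F.E K := ⟨_, rfl⟩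
  rw [← hk]
  have hx0 : 0 < F.x₁ := by linarith [hF.h1]
  have ha0 : 0 < a₀ := by linarith [S.lo]
  have hP0 : (0 : ℝ) < F.P := by exact_mod_cast hF.hP
  have h1 : (2 : ℝ) ^ k ≤ (a₀ ^ (1 / (F.P : ℝ))) ^ (F.X * k) := by
    have e1 : F.x₁ ^ (1 / (F.P : ℝ)) ≤ a₀ ^ (1 / (F.P : ℝ)) := Real.rpow_le_rpow hx0.le S.lo (by positivity)
    have e2 : 0 ≤ F.x₁ ^ (1 / (F.P : ℝ)) := Real.rpow_nonneg hx0.le _
    calc (2 : ℝ) ^ k ≤ ((F.x₁ ^ (1 / (F.P : ℝ))) ^ F.X) ^ k := pow_le_pow_left₀ (by norm_num) hF.hx1 _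
      _ = (F.x₁ ^ (1 / (F.P : ℝ))) ^ (F.X * k) := (pow_mul _ _ _).symm
      _ ≤ (a₀ ^ (1 / (F.P : ℝ))) ^ (F.X * k) := pow_le_pow_left₀ e2 e1 _
  have h3 : (2 : ℝ) ^ k = 2 ^ F.X * 2 ^ (2 ^ (2 * K)) * 2 ^ (F.C₁ * F.E K) := by
    rw [hk, pow_add, pow_add]
  have h4 : F.Th K = 2 ^ (F.C₁ * F.E K) := rfl
  have hA := hF.hA
  have hℓ := S.pos
  refine Tt_le ?_
  rw [h4]
  have hp : (0 : ℝ) < 2 ^ (F.C₁ * F.E K) := by positivity
  have h5 : 1 ≤ (F.A₀ * 2 ^ F.X) * (ℓst * 2 ^ (2 ^ (2 * K))) := one_le_mul_of_one_le_of_one_le hF.hA2 S.lg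
  have h6 : F.A₀ * 2 ^ k ≤ fp F.A₀ F.P (F.X * k + F.P) a₀ := by
    have e3 := fp_step (A₀ := F.A₀) (P := F.P) (n := F.P) (n' := F.X * k + F.P) hF.hA hF.hP ha0 (by omega)
    rw [Nat.add_sub_cancel] at e3
    have e4 : fp F.A₀ F.P F.P a₀ = F.A₀ := by
      unfold fp
      rw [div_self hP0.ne', sub_self, Real.rpow_zero]
      ring
    rw [e4] at e3
    exact (mul_le_mul_of_nonneg_left h1 hA.le).trans e3
  calc (2 : ℝ) ^ (F.C₁ * F.E K) ≤ (F.A₀ * 2 ^ F.X) * (ℓst * 2 ^ (2 ^ (2 * K))) * 2 ^ (F.C₁ * F.E K) :=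
        le_mul_of_one_le_left hp.le h5
    _ = F.A₀ * 2 ^ k * ℓst := by
        rw [h3]
        ring
    _ ≤ fp F.A₀ F.P (F.X * k + F.P) a₀ * ℓst := mul_le_mul_of_nonneg_right h6 hℓ.le

/-- the derivatives at the end of the stage -/
theorem V_end {F : Pm} {K : ℕ} {a₀ ℓst x : ℝ} {j : ℕ} (hF : F.Ok) (hK : F.Big K) (S : F.St K a₀ ℓst)
    (hax : a₀ ≤ x) (hx : x ≤ a₀ + ℓst) (hj : j ≤ 2 ^ (2 * K) + F.d) : F.V K a₀ ℓst j x ≤ 2 * F.V K a₀ ℓst j a₀ := by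
  have h0 := start_le hF S
  have hZ := num_Z hK
  have hK12 := num_K hK
  have hl := num_le hF
  have hE := (num_E hF K).2.1
  have hpw := (num_pow hF hK).1
  have hE2 : F.E K ≤ K * K := hE.trans (Nat.mul_le_mul_right _ hZ.2.2)
  have hC : F.C₁ ≤ K := by omega
  have hX : F.X ≤ K := by omega
  have hd : F.d + 4 ≤ K := by omega
  have hPK : F.P ≤ K := by omega
  have h1 : F.X * (F.X + 2 ^ (2 * K) + F.C₁ * F.E K) ≤ K * (K + 2 ^ (2 * K) + K * (K * K)) :=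
    Nat.mul_le_mul hX (Nat.add_le_add (Nat.add_le_add hX le_rfl) (Nat.mul_le_mul hC hE2))
  have hK4 : 3 * K + 1 ≤ K ^ 4 := by
    have : K ^ 4 = K * (K * K * K) := by ring
    rw [this]
    have h2 : 4 ≤ K * K * K := by
      calc 4 ≤ K * 1 * 1 := by omega
        _ ≤ K * K * K := Nat.mul_le_mul (Nat.mul_le_mul_left _ (by omega)) (by omega)
    calc 3 * K + 1 ≤ K * 4 := by omega
      _ ≤ K * (K * K * K) := Nat.mul_le_mul_left _ h2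
  have h2 : K * (K + 2 ^ (2 * K) + K * (K * K)) + K + (2 ^ (2 * K) + F.d) ≤ 2 ^ (3 * K) := by
    have e1 : K * K + K * (K * (K * K)) + K + K ≤ K ^ 20 := by
      have e2 : K * K + K * (K * (K * K)) + K + K ≤ 4 * K ^ 4 := by
        have e3 : K * (K * (K * K)) = K ^ 4 := by ring
        have e4 : K * K ≤ K ^ 4 := by
          calc K * K = K ^ 2 := by ring
            _ ≤ K ^ 4 := Nat.pow_le_pow_right (by omega) (by norm_num)
        have e5 : K ≤ K ^ 4 := Nat.le_self_pow (by norm_num) _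
        omega
      have e6 : 4 * K ^ 4 ≤ K ^ 20 := by
        calc 4 * K ^ 4 ≤ K ^ 16 * K ^ 4 := Nat.mul_le_mul_right _ (by
              have : K ≤ K ^ 16 := Nat.le_self_pow (by norm_num) _
              omega)
          _ = K ^ 20 := by ring
      exact e2.trans e6
    have e7 : 2 ^ K ≤ 2 ^ (2 * K) := Nat.pow_le_pow_right (by norm_num) (by omega)
    have e8 : K + 2 ≤ 2 ^ K := by
      have : K ^ 2 ≤ K ^ 20 := Nat.pow_le_pow_right (by omega) (by norm_num)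
      have h3 : K + 2 ≤ K ^ 2 := by
        calc K + 2 ≤ K * 2 := by omega
          _ ≤ K * K := Nat.mul_le_mul_left _ (by omega)
          _ = K ^ 2 := by ring
      exact h3.trans (this.trans hpw)
    have e9 : 2 ^ (3 * K) = 2 ^ K * 2 ^ (2 * K) := by
      rw [← pow_add]
      congr 1
      ring
    have e10 : (K + 2) * 2 ^ (2 * K) ≤ 2 ^ (3 * K) := by
      rw [e9]
      exact Nat.mul_le_mul_right _ e8
    have e11 : K * (K + 2 ^ (2 * K) + K * (K * K)) + K + (2 ^ (2 * K) + F.d) =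
        (K * K + K * (K * (K * K)) + K + F.d) + (K + 1) * 2 ^ (2 * K) := by ring
    rw [e11]
    have e12 : (K + 2) * 2 ^ (2 * K) = (K + 1) * 2 ^ (2 * K) + 2 ^ (2 * K) := by ring
    omega
  have hT : F.n₀ K a₀ ℓst + j ≤ 2 ^ (3 * K) := by omega
  refine fp_near hF.hA hF.hP (by linarith [hF.h1, S.lo]) hax hx hT ?_
  have h3 : (((2 ^ (3 * K) : ℕ) : ℝ)) * 2 ≤ 2 ^ (K ^ 4) := by
    push_cast
    rw [← pow_succ]
    exact pow_le_pow_right₀ (by norm_num) hK4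
  have h4 := S.sm
  have h5 := S.pos
  obtain ⟨Q, hQ⟩ : ∃ Q : ℝ, Q = ((2 ^ (3 * K) : ℕ) : ℝ) := ⟨_, rfl⟩
  rw [← hQ] at h3 ⊢
  have h6 := mul_le_mul_of_nonneg_left h3 h5.le
  linarith

/-- the times of a stage are larger than `P` -/
theorem n₀_ge {F : Pm} {K : ℕ} {a₀ ℓst : ℝ} (hF : F.Ok) (hK : F.Big K) (S : F.St K a₀ ℓst) : F.P ≤ F.n₀ K a₀ ℓst := by
  have h1 : ℓst ≤ 1 := by
    have h2 := S.sm
    have h3 := S.pos
    have h4 : (1 : ℝ) ≤ 2 ^ (K ^ 4) := one_le_pow₀ (by norm_num)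
    calc ℓst = ℓst * 1 := (mul_one _).symm
      _ ≤ ℓst * 2 ^ (K ^ 4) := mul_le_mul_of_nonneg_left h4 h3.le
      _ ≤ 1 := h2
  have := Tt_big (Θ := F.Th K) (a := a₀) hF S.pos h1 (Th_ge hF hK) S.lo
  exact (Nat.le_succ _).trans this

variable {F : Pm} {K : ℕ} {a₀ ℓst a ℓ : ℝ}

/-- old times are slow -/
theorem old_slow (hF : F.Ok) (hK : F.Big K) (S : F.St K a₀ ℓst) {m : ℝ} (hm : 0 < m) {j : ℕ}
    (hj : j + F.R * F.E K < F.T K a₀ ℓst m + F.d) :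
    j < F.T K a₀ ℓst m ∧ F.V K a₀ ℓst j a₀ * m * 2 ^ (20 * F.E K) ≤ 1 := by
  have hE := num_E hF K
  have hdE : F.d ≤ F.E K := by
    unfold Pm.E
    have := num_K hK
    nlinarith
  have hR : F.R * F.E K = F.X * (F.C₁ + 20) * F.E K + F.E K := by
    unfold Pm.R
    ring
  have hE1 : 1 ≤ F.E K := by
    have := num_K hK
    omega
  have hXE : 20 * F.E K ≤ F.X * (F.C₁ + 20) * F.E K := by
    have hX1 : 1 ≤ F.X := hF.hP.trans hF.hPX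
    have h1 : 20 ≤ F.X * (F.C₁ + 20) := by nlinarith
    exact Nat.mul_le_mul_right _ h1
  have hjT : j < F.T K a₀ ℓst m := by omega
  refine ⟨hjT, ?_⟩
  obtain ⟨i, hi⟩ : ∃ i, F.T K a₀ ℓst m = j + 1 + i := ⟨F.T K a₀ ℓst m - (j + 1), by omega⟩
  have hi2 : F.X * ((F.C₁ + 20) * F.E K) ≤ i := by
    have : F.X * ((F.C₁ + 20) * F.E K) = F.X * (F.C₁ + 20) * F.E K := by ring
    omega
  have hlt : F.n₀ K a₀ ℓst + j + i < Tt F.A₀ F.P (F.Th K) a₀ m := by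
    unfold Pm.T at hi
    omega
  have h1 := lt_Tt hlt
  have ha0 : 0 < a₀ := by linarith [hF.h1, S.lo]
  have hx0 : 0 < F.x₁ := by linarith [hF.h1]
  have hy0 : 0 ≤ F.x₁ ^ (1 / (F.P : ℝ)) := Real.rpow_nonneg hx0.le _
  have hy1 : F.x₁ ^ (1 / (F.P : ℝ)) ≤ a₀ ^ (1 / (F.P : ℝ)) := Real.rpow_le_rpow hx0.le S.lo (by positivity)
  have ha1 : 1 ≤ a₀ ^ (1 / (F.P : ℝ)) := Real.one_le_rpow (by linarith [hF.h1, S.lo]) (by positivity)
  have h2 := fp_step (n := F.n₀ K a₀ ℓst + j) (n' := F.n₀ K a₀ ℓst + j + i) hF.hA hF.hP ha0 (by omega)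
  rw [Nat.add_sub_cancel_left] at h2
  have hV : F.V K a₀ ℓst j a₀ = fp F.A₀ F.P (F.n₀ K a₀ ℓst + j) a₀ := rfl
  have hV0 : 0 ≤ F.V K a₀ ℓst j a₀ := by
    rw [hV]
    exact fp_nonneg hF.hA ha0
  have h3 : (2 : ℝ) ^ ((F.C₁ + 20) * F.E K) ≤ (a₀ ^ (1 / (F.P : ℝ))) ^ i := by
    calc (2 : ℝ) ^ ((F.C₁ + 20) * F.E K) ≤ ((F.x₁ ^ (1 / (F.P : ℝ))) ^ F.X) ^ ((F.C₁ + 20) * F.E K) :=
          pow_le_pow_left₀ (by norm_num) hF.hx1 _
      _ = (F.x₁ ^ (1 / (F.P : ℝ))) ^ (F.X * ((F.C₁ + 20) * F.E K)) := (pow_mul _ _ _).symm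
      _ ≤ (a₀ ^ (1 / (F.P : ℝ))) ^ (F.X * ((F.C₁ + 20) * F.E K)) := pow_le_pow_left₀ hy0 hy1 _
      _ ≤ (a₀ ^ (1 / (F.P : ℝ))) ^ i := pow_le_pow_right₀ ha1 hi2
  have h4 : F.V K a₀ ℓst j a₀ * m * (2 ^ (F.C₁ * F.E K) * 2 ^ (20 * F.E K)) ≤ 2 ^ (F.C₁ * F.E K) := by
    calc F.V K a₀ ℓst j a₀ * m * (2 ^ (F.C₁ * F.E K) * 2 ^ (20 * F.E K))
        = F.V K a₀ ℓst j a₀ * m * 2 ^ ((F.C₁ + 20) * F.E K) := by
          rw [← pow_add]
          congr 2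
          ring
      _ ≤ F.V K a₀ ℓst j a₀ * m * (a₀ ^ (1 / (F.P : ℝ))) ^ i := mul_le_mul_of_nonneg_left h3 (mul_nonneg hV0 hm.le)
      _ = fp F.A₀ F.P (F.n₀ K a₀ ℓst + j) a₀ * (a₀ ^ (1 / (F.P : ℝ))) ^ i * m := by
          rw [hV]
          ring
      _ ≤ fp F.A₀ F.P (F.n₀ K a₀ ℓst + j + i) a₀ * m := mul_le_mul_of_nonneg_right h2 hm.le
      _ ≤ F.Th K := h1.le
      _ = 2 ^ (F.C₁ * F.E K) := rfl
  have h5 : (0 : ℝ) < 2 ^ (F.C₁ * F.E K) := by positivity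
  have h6 : F.V K a₀ ℓst j a₀ * m * 2 ^ (20 * F.E K) * 2 ^ (F.C₁ * F.E K) ≤ 1 * 2 ^ (F.C₁ * F.E K) := by
    linarith
  exact le_of_mul_le_mul_right h6 h5

open Classical in
theorem stage_nb7 (hF : F.Ok) (hK : F.Big K) (S : F.St K a₀ ℓst) (hℓ : 0 < ℓ) (h1 : a₀ ≤ a) (h2 : a + ℓ ≤ a₀ + ℓst)
    (hcount : F.T K a₀ ℓst (ℓ / 2 ^ (K ^ 3)) + F.R * F.E K ≤ 2 ^ (2 * K)) :
    (((Finset.range (2 ^ (K ^ 3))).filter fun b : ℕ => ¬ NBg (F.U K a₀ ℓst) (F.T K a₀ ℓst (ℓ / 2 ^ (K ^ 3)) + F.d) (F.R * F.E K) (2 ^ K)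
      (a + b * (ℓ / (2 ^ (K ^ 3) : ℕ))) (ℓ / (2 ^ (K ^ 3) : ℕ))).card : ℝ) ≤ (1 / 2) ^ (3 * F.E K) * (2 ^ (K ^ 3) : ℕ) := by
  obtain ⟨B, hB⟩ : ∃ B : ℕ, B = 2 ^ (K ^ 3) := ⟨_, rfl⟩
  have hBr : (2 : ℝ) ^ (K ^ 3) = (B : ℝ) := by
    rw [hB]
    push_cast
    rfl
  rw [← hB]
  rw [hBr] at hcount ⊢
  have hB0 : (0 : ℝ) < B := by
    rw [← hBr]
    positivity
  obtain ⟨m, hm⟩ : ∃ m : ℝ, m = ℓ / (B : ℝ) := ⟨_, rfl⟩
  rw [← hm] at hcount ⊢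
  have hm0 : 0 < m := by
    rw [hm]
    positivity
  have hBm : (B : ℝ) * m = ℓ := by
    rw [hm]
    field_simp
  obtain ⟨J, hJ⟩ : ∃ J : ℕ, J = F.T K a₀ ℓst m + F.d - F.R * F.E K := ⟨_, rfl⟩
  have hJ' : ∀ j, j < J ↔ j + F.R * F.E K < F.T K a₀ ℓst m + F.d := by
    intro j
    omega
  -- the union over the old times
  have hsub : ((Finset.range B).filter fun b : ℕ => ¬ NBg (F.U K a₀ ℓst) (F.T K a₀ ℓst m + F.d) (F.R * F.E K) (2 ^ K)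
      (a + b * m) m) ⊆ (Finset.range J).biUnion fun j => (Finset.range B).filter fun b : ℕ =>
        ¬ ∀ x ∈ Icc (a + b * m) (a + b * m + m),
          ⌊((2 ^ K : ℕ) : ℝ) * F.U K a₀ ℓst j x⌋ = ⌊((2 ^ K : ℕ) : ℝ) * F.U K a₀ ℓst j (a + b * m)⌋ := by
    intro b hb
    rw [Finset.mem_filter] at hb
    obtain ⟨hb1, hb2⟩ := hb
    unfold NBg at hb2
    push Not at hb2
    obtain ⟨j, hj, x, hx, hx2⟩ := hb2
    rw [Finset.mem_biUnion]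
    refine ⟨j, Finset.mem_range.2 ((hJ' j).2 hj), ?_⟩
    rw [Finset.mem_filter]
    exact ⟨hb1, fun h => hx2 (h x hx)⟩
  have ha0 : 0 < a₀ := by linarith [hF.h1, S.lo]
  have hcard : ∀ j < J, (((Finset.range B).filter fun b : ℕ =>
        ¬ ∀ x ∈ Icc (a + b * m) (a + b * m + m),
          ⌊((2 ^ K : ℕ) : ℝ) * F.U K a₀ ℓst j x⌋ = ⌊((2 ^ K : ℕ) : ℝ) * F.U K a₀ ℓst j (a + b * m)⌋).card : ℝ) ≤
        2 ^ K * (2 * B * (1 / 2) ^ (20 * F.E K)) + 1 := by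
    intro j hj
    obtain ⟨hj1, hj2⟩ := old_slow hF hK S hm0 ((hJ' j).1 hj)
    have hmo : MonotoneOn (F.U K a₀ ℓst j) (Icc a (a + B * m)) := by
      intro x hx y hy hxy
      exact pwf_mono hF.hA (by linarith [hx.1]) hxy
    refine (few_floor (N₀ := 2 ^ K) hm0.le hmo).trans ?_
    rw [hBm]
    have h3 : F.U K a₀ ℓst j (a + ℓ) - F.U K a₀ ℓst j a ≤ F.V K a₀ ℓst j (a + ℓ) * ℓ := by
      have := pwf_sub (A₀ := F.A₀) (P := F.P) (x := a) (y := a + ℓ) (c := F.c) (n := F.n₀ K a₀ ℓst + j) hF.hA hF.hP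
        ((n₀_ge hF hK S).trans (Nat.le_add_right _ _)) (by linarith) (by linarith)
      rw [add_sub_cancel_left] at this
      exact this
    have h4 := V_end (j := j) hF hK S (show a₀ ≤ a + ℓ by linarith) h2 (by omega)
    have h5 : F.V K a₀ ℓst j a₀ * m ≤ (1 / 2) ^ (20 * F.E K) := by
      have h6 : (0 : ℝ) < 2 ^ (20 * F.E K) := by positivity
      have h7 : ((1 : ℝ) / 2) ^ (20 * F.E K) = 1 / 2 ^ (20 * F.E K) := by
        rw [div_pow, one_pow]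
      rw [h7, le_div_iff₀ h6]
      exact hj2
    have h8 : F.U K a₀ ℓst j (a + ℓ) - F.U K a₀ ℓst j a ≤ 2 * B * (1 / 2) ^ (20 * F.E K) := by
      refine h3.trans ?_
      calc F.V K a₀ ℓst j (a + ℓ) * ℓ ≤ 2 * F.V K a₀ ℓst j a₀ * ℓ := mul_le_mul_of_nonneg_right h4 hℓ.le
        _ = 2 * B * (F.V K a₀ ℓst j a₀ * m) := by
            rw [← hBm]
            ring
        _ ≤ 2 * B * (1 / 2) ^ (20 * F.E K) := mul_le_mul_of_nonneg_left h5 (by positivity)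
    have h9 : ((2 ^ K : ℕ) : ℝ) = 2 ^ K := by push_cast; rfl
    rw [h9]
    have h10 : (0 : ℝ) ≤ 2 ^ K := by positivity
    linarith [mul_le_mul_of_nonneg_left h8 h10]
  have hJ2 : (J : ℝ) ≤ 2 ^ (2 * K) := by
    have : J ≤ 2 ^ (2 * K) := by
      by_cases h0 : J = 0
      · rw [h0]
        exact Nat.zero_le _
      · have := (old_slow hF hK S hm0 ((hJ' (J - 1)).1 (by omega))).1
        omega
    exact_mod_cast this
  have hE4 := (num_E hF K).1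
  have hEZ := (num_E hF K).2.1
  have hZ := (num_Z hK).2.2
  have hK12 := num_K hK
  have htot : (((Finset.range B).filter fun b : ℕ => ¬ NBg (F.U K a₀ ℓst) (F.T K a₀ ℓst m + F.d) (F.R * F.E K) (2 ^ K)
      (a + b * m) m).card : ℝ) ≤ J * (2 ^ K * (2 * B * (1 / 2) ^ (20 * F.E K)) + 1) := by
    have h3 : (((Finset.range B).filter fun b : ℕ => ¬ NBg (F.U K a₀ ℓst) (F.T K a₀ ℓst m + F.d) (F.R * F.E K) (2 ^ K)
      (a + b * m) m).card : ℝ) ≤ ∑ j ∈ Finset.range J, (((Finset.range B).filter fun b : ℕ =>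
        ¬ ∀ x ∈ Icc (a + b * m) (a + b * m + m),
          ⌊((2 ^ K : ℕ) : ℝ) * F.U K a₀ ℓst j x⌋ = ⌊((2 ^ K : ℕ) : ℝ) * F.U K a₀ ℓst j (a + b * m)⌋).card : ℝ) := by
      exact_mod_cast (Finset.card_le_card hsub).trans Finset.card_biUnion_le
    refine h3.trans ((Finset.sum_le_sum fun j hj => hcard j (Finset.mem_range.1 hj)).trans ?_)
    rw [Finset.sum_const, Finset.card_range, nsmul_eq_mul]
  refine htot.trans ?_
  obtain ⟨E, hEE⟩ : ∃ E, E = F.E K := ⟨_, rfl⟩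
  rw [← hEE] at hE4 hEZ ⊢
  have hEK : 4 * E + 1 ≤ K ^ 3 := by
    have h3 : E ≤ K * K := hEZ.trans (Nat.mul_le_mul_right _ hZ)
    have h4 : 5 * (K * K) ≤ K ^ 3 := by
      have : K ^ 3 = K * (K * K) := by ring
      rw [this]
      exact Nat.mul_le_mul_right _ (by omega)
    have h5 : 1 ≤ K * K := by nlinarith
    omega
  have hBE : (2 : ℝ) ^ (4 * E + 1) ≤ B := by
    rw [← hBr]
    exact pow_le_pow_right₀ (by norm_num) hEK
  have hp1 : (0 : ℝ) < (1 / 2) ^ (3 * E) := by positivity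
  -- first term
  have t1 : (2 : ℝ) ^ (2 * K) * (2 ^ K * (2 * B * (1 / 2) ^ (20 * E))) ≤ 1 / 2 * ((1 / 2) ^ (3 * E) * B) := by
    have e1 : (2 : ℝ) ^ (2 * K) * (2 ^ K * (2 * B * (1 / 2) ^ (20 * E))) =
        1 / 2 * ((1 / 2) ^ (3 * E) * B) * (2 ^ (3 * K + 2) * (1 / 2) ^ (17 * E)) := by
      have : (20 * E) = 3 * E + 17 * E := by ring
      rw [this, pow_add]
      have e2 : (2 : ℝ) ^ (3 * K + 2) = 2 ^ (2 * K) * 2 ^ K * 4 := by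
        have : 3 * K + 2 = 2 * K + K + 2 := by ring
        rw [this, pow_add, pow_add]
        norm_num
      rw [e2]
      ring
    rw [e1]
    have e3 : (2 : ℝ) ^ (3 * K + 2) * (1 / 2) ^ (17 * E) ≤ 1 := by
      have e4 : (2 : ℝ) ^ (3 * K + 2) ≤ 2 ^ (17 * E) := pow_le_pow_right₀ (by norm_num) (by omega)
      calc (2 : ℝ) ^ (3 * K + 2) * (1 / 2) ^ (17 * E) ≤ 2 ^ (17 * E) * (1 / 2) ^ (17 * E) := by gcongr
        _ = 1 := by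
            rw [← mul_pow]
            norm_num
    exact mul_le_of_le_one_right (by positivity) e3
  have t2 : (2 : ℝ) ^ (2 * K) ≤ 1 / 2 * ((1 / 2) ^ (3 * E) * B) := by
    have e1 : (2 : ℝ) ^ (2 * K) ≤ 2 ^ E := pow_le_pow_right₀ (by norm_num) (by omega)
    have e2 : (1 : ℝ) / 2 * ((1 / 2) ^ (3 * E) * 2 ^ (4 * E + 1)) = 2 ^ E := by
      have : 4 * E + 1 = 3 * E + E + 1 := by ring
      rw [this, pow_add, pow_add]
      have e3 : ((1 : ℝ) / 2) ^ (3 * E) * 2 ^ (3 * E) = 1 := by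
        rw [← mul_pow]
        norm_num
      linear_combination (2 : ℝ) ^ E * e3
    calc (2 : ℝ) ^ (2 * K) ≤ 2 ^ E := e1
      _ = 1 / 2 * ((1 / 2) ^ (3 * E) * 2 ^ (4 * E + 1)) := e2.symm
      _ ≤ 1 / 2 * ((1 / 2) ^ (3 * E) * B) := by gcongr
  have h0 : 0 ≤ 2 ^ K * (2 * (B : ℝ) * (1 / 2) ^ (20 * E)) + 1 := by positivity
  calc (J : ℝ) * (2 ^ K * (2 * B * (1 / 2) ^ (20 * E)) + 1) ≤ 2 ^ (2 * K) * (2 ^ K * (2 * B * (1 / 2) ^ (20 * E)) + 1) :=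
        mul_le_mul_of_nonneg_right hJ2 h0
    _ = 2 ^ (2 * K) * (2 ^ K * (2 * B * (1 / 2) ^ (20 * E))) + 2 ^ (2 * K) := by ring
    _ ≤ (1 / 2) ^ (3 * E) * B := by linarith

end Pool.Agent.Helper4.LD7
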